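import Pool.Agent.L7h48.RT.Stm

set_option autoImplicit false

/-!
# Project RT, part UNI: the union bound
-/

namespace Pool.Agent.L7h82.RT

open Filter Topology MeasureTheory Pool.Agent.L7h48.RT
open scoped Classical

theorem E_mono {ι S : Type} [Fintype ι] [DecidableEq ι] [Fintype S] (w : S → ℝ)
    (hw : ∀ s, 0 ≤ w s) (f g : (ι → S) → ℝ) (h : ∀ x, f x ≤ g x) : E w f ≤ E w g := by
  unfold E
  exact Finset.sum_le_sum fun x _ =>
    mul_le_mul_of_nonneg_left (h x) (Finset.prod_nonneg fun e _ => hw _)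

theorem E_sum {ι S κ : Type} [Fintype ι] [DecidableEq ι] [Fintype S] (w : S → ℝ) (s : Finset κ)
    (f : κ → (ι → S) → ℝ) : E w (fun x => ∑ i ∈ s, f i x) = ∑ i ∈ s, E w (f i) := by
  unfold E
  simp_rw [Finset.mul_sum]
  exact Finset.sum_comm

theorem w1_nonneg (c : ℕ) (q : ℝ) (h0 : 0 ≤ q) (h1 : q ≤ 1) (s : Option (Fin c)) :
    0 ≤ w1 c q s := by
  unfold w1
  split_ifs
  · linarith
  · positivity

theorem ind_nonneg (A : Prop) : 0 ≤ ind A := by
  unfold ind
  split_ifs <;> norm_num

theorem big_card {n : ℕ} (l : ℝ) (H : SimpleGraph (Fin n)) :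
    ((big l H).card : ℝ) * l ≤ n := by
  have h1 : ((big l H).card : ℝ) * l ≤ ∑ C ∈ big l H, (C.supp.ncard : ℝ) := by
    rw [← nsmul_eq_mul]
    refine Finset.card_nsmul_le_sum _ _ _ fun C hC => ?_
    exact (Finset.mem_filter.1 hC).2.le
  have h2 : ∑ C ∈ big l H, C.supp.ncard ≤ n := by
    have h3 : ∀ C : H.ConnectedComponent,
        C.supp.ncard = (Finset.univ.filter fun v => H.connectedComponentMk v = C).card := by
      intro C
      rw [← Set.ncard_coe_finset]
      congr 1
      ext v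
      simp [SimpleGraph.ConnectedComponent.mem_supp_iff]
    simp_rw [h3]
    rw [← Finset.card_biUnion]
    · exact (Finset.card_le_univ _).trans (by simp)
    · intro C _ C' _ hCC
      rw [Function.onFun, Finset.disjoint_left]
      intro v hv hv'
      exact hCC ((Finset.mem_filter.1 hv).2.symm.trans (Finset.mem_filter.1 hv').2)
  have h4 : ∑ C ∈ big l H, (C.supp.ncard : ℝ) ≤ n := by exact_mod_cast h2
  exact h1.trans h4

theorem s_UNI (hAVO : S_AVO) (hCTD : S_CTD) : S_UNI := by
  intro n c k l r q u N x H hc hl hr hq0 hq1 hu0 hu1 hHk hN hnk hNr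
  have hcR : (0 : ℝ) < c := by exact_mod_cast hc
  have hnl : 0 ≤ (n : ℝ) / l := by positivity
  let A : Finset H.ConnectedComponent → Finset (Fin n) := fun S =>
    Finset.univ.filter fun v => H.connectedComponentMk v ∈ S
  let B : Finset H.ConnectedComponent → Finset (Fin n) := fun S =>
    Finset.univ.filter fun v => H.connectedComponentMk v ∈ big l H \ S
  let P : Finset H.ConnectedComponent → Finset (Pr n) := fun S =>
    Finset.univ.filter fun e => x e = none ∧ ∃ a b, e.1 = s(a, b) ∧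
      H.connectedComponentMk a ∈ S ∧ H.connectedComponentMk b ∈ big l H \ S
  let U : Finset (Fin c) := Finset.univ.filter fun j => ∃ f : Pr n, f.1 ∈ H.edgeSet ∧ x f = some j
  let Q : Finset (Fin c) → Finset (Fin c) := fun D => Finset.univ \ (D ∪ U)
  let I : Finset (Finset H.ConnectedComponent × Finset (Fin c)) :=
    ((big l H).powerset ×ˢ
      (Finset.univ.filter fun D : Finset (Fin c) => (D.card : ℝ) ≤ n / l)).filter fun SD =>
        r / 2 ≤ ((A SD.1).card : ℝ) ∧ r / 2 ≤ ((B SD.1).card : ℝ)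
  -- step 1
  have step1 : ∀ z : Col n c, ind (Bad l r x z H) ≤
      ∑ SD ∈ I, ind (∀ e ∈ P SD.1, ∀ j ∈ Q SD.2, z e ≠ some j) := by
    intro z
    by_cases hB : Bad l r x z H
    · obtain ⟨S, D, hS, hD, hA, hBb, hall⟩ := hB
      have hmem : (S, D) ∈ I := by
        refine Finset.mem_filter.2 ⟨Finset.mem_product.2 ⟨Finset.mem_powerset.2 hS,
          Finset.mem_filter.2 ⟨Finset.mem_univ _, hD⟩⟩, hA, hBb⟩
      have h1 : ind (Bad l r x z H) ≤ ind (∀ e ∈ P S, ∀ j ∈ Q D, z e ≠ some j) := by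
        have h2 : ∀ e ∈ P S, ∀ j ∈ Q D, z e ≠ some j := by
          intro e he j hj hz
          obtain ⟨-, hxe, hab⟩ := Finset.mem_filter.1 he
          rw [Finset.mem_sdiff, Finset.mem_union, not_or] at hj
          rcases hall e hxe hab j hz with h3 | h3
          · exact hj.2.1 h3
          · exact hj.2.2 (Finset.mem_filter.2 ⟨Finset.mem_univ _, h3⟩)
        unfold ind
        rw [if_pos h2]
        split_ifs <;> norm_num
      refine h1.trans ?_
      exact Finset.single_le_sum
        (f := fun SD : Finset H.ConnectedComponent × Finset (Fin c) =>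
          ind (∀ e ∈ P SD.1, ∀ j ∈ Q SD.2, z e ≠ some j))
        (fun _ _ => ind_nonneg _) hmem
    · have h1 : ind (Bad l r x z H) = 0 := by unfold ind; rw [if_neg hB]
      rw [h1]
      exact Finset.sum_nonneg fun _ _ => ind_nonneg _
  -- step 2: sizes
  have hP : ∀ S ⊆ big l H, r / 2 ≤ ((A S).card : ℝ) → r / 2 ≤ ((B S).card : ℝ) →
      r ^ 2 / 4 - N ≤ ((P S).card : ℝ) := by
    intro S _ hA hB
    have hAB : ∀ a ∈ A S, ∀ b ∈ B S, a ≠ b := by
      rintro a ha b hb rfl
      exact (Finset.mem_sdiff.1 (Finset.mem_filter.1 hb).2).2 (Finset.mem_filter.1 ha).2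
    let g : (A S) × (B S) → Pr n := fun ab => ⟨s(ab.1.1, ab.2.1), by
      rw [Sym2.mk_isDiag_iff]
      exact hAB _ ab.1.2 _ ab.2.2⟩
    have hg : Function.Injective g := by
      rintro ⟨⟨a, ha⟩, ⟨b, hb⟩⟩ ⟨⟨a', ha'⟩, ⟨b', hb'⟩⟩ h
      have h1 : s(a, b) = s(a', b') := congrArg Subtype.val h
      rw [Sym2.eq_iff] at h1
      rcases h1 with ⟨rfl, rfl⟩ | ⟨rfl, rfl⟩
      · rfl
      · exact absurd rfl (hAB _ ha _ hb')
    have h1 : (A S).card * (B S).card ≤ (P S).card + ne x := by
      have h2 : (Finset.univ.image g).card = (A S).card * (B S).card := by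
        rw [Finset.card_image_of_injective _ hg, Finset.card_univ, Fintype.card_prod,
          Fintype.card_coe, Fintype.card_coe]
      rw [← h2]
      have h3 : Finset.univ.image g ⊆ P S ∪ Finset.univ.filter fun e => x e ≠ none := by
        intro e he
        obtain ⟨⟨⟨a, ha⟩, ⟨b, hb⟩⟩, -, rfl⟩ := Finset.mem_image.1 he
        rw [Finset.mem_union]
        by_cases hx : x (g ⟨⟨a, ha⟩, ⟨b, hb⟩⟩) = none
        · left
          exact Finset.mem_filter.2 ⟨Finset.mem_univ _, hx, a, b, rfl,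
            (Finset.mem_filter.1 ha).2, (Finset.mem_filter.1 hb).2⟩
        · right
          exact Finset.mem_filter.2 ⟨Finset.mem_univ _, hx⟩
      exact (Finset.card_le_card h3).trans (Finset.card_union_le _ _)
    have h2 : ((A S).card : ℝ) * (B S).card ≤ (P S).card + ne x := by exact_mod_cast h1
    have h3 : r / 2 * (r / 2) ≤ ((A S).card : ℝ) * (B S).card :=
      mul_le_mul hA hB (by positivity) (by positivity)
    nlinarith
  have hU : U.card + k ≤ c := by
    refine le_trans (Nat.add_le_add_right ?_ k) hHk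
    have h1 : U ⊆ (Finset.univ.filter fun f : Pr n => f.1 ∈ H.edgeSet ∧ x f ≠ none).biUnion
        fun f => (x f).toFinset := by
      intro j hj
      obtain ⟨-, f, hf, hxf⟩ := Finset.mem_filter.1 hj
      refine Finset.mem_biUnion.2 ⟨f, Finset.mem_filter.2 ⟨Finset.mem_univ _, hf, ?_⟩, ?_⟩
      · rw [hxf]; exact Option.some_ne_none _
      · rw [hxf]; simp
    have h2 : U.card ≤ (Finset.univ.filter fun f : Pr n => f.1 ∈ H.edgeSet ∧ x f ≠ none).card := by
      refine (Finset.card_le_card h1).trans ?_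
      refine Finset.card_biUnion_le.trans ?_
      rw [Finset.card_eq_sum_ones]
      refine Finset.sum_le_sum fun f _ => ?_
      cases x f <;> simp
    refine h2.trans ?_
    have h3 : (Finset.univ.filter fun f : Pr n => f.1 ∈ H.edgeSet ∧ x f ≠ none).card =
        ((Finset.univ.filter fun f : Pr n => f.1 ∈ H.edgeSet ∧ x f ≠ none).image
          Subtype.val).card := (Finset.card_image_of_injective _ Subtype.val_injective).symm
    rw [h3, ← Set.ncard_coe_finset]
    refine Set.ncard_le_ncard ?_ (Set.toFinite _)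
    intro e he
    simp only [Finset.coe_image, Set.mem_image, Finset.mem_coe, Finset.mem_filter] at he
    obtain ⟨f, ⟨-, hf, -⟩, rfl⟩ := he
    exact hf
  have hQ : ∀ D : Finset (Fin c), (D.card : ℝ) ≤ n / l → (k : ℝ) - n / l ≤ ((Q D).card : ℝ) := by
    intro D hD
    have h1 : c ≤ (Q D).card + (D.card + U.card) := by
      have h2 := Finset.card_sdiff_add_card (Finset.univ : Finset (Fin c)) (D ∪ U)
      have h3 : (Finset.univ : Finset (Fin c)).card ≤ ((Finset.univ : Finset (Fin c)) ∪ (D ∪ U)).card :=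
        Finset.card_le_card Finset.subset_union_left
      have h4 := Finset.card_union_le D U
      rw [Finset.card_univ, Fintype.card_fin] at h3
      show c ≤ (Finset.univ \ (D ∪ U)).card + (D.card + U.card)
      omega
    have h5 : k ≤ (Q D).card + D.card := by omega
    have h6 : (k : ℝ) ≤ (Q D).card + D.card := by exact_mod_cast h5
    linarith
  -- step 3
  have step3 : ∀ SD ∈ I, E (w1 c q) (fun z : Col n c =>
      ind (∀ e ∈ P SD.1, ∀ j ∈ Q SD.2, z e ≠ some j)) ≤
      Real.exp (-(q * (k - n / l) / c * (r ^ 2 / 4 - N))) := by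
    rintro ⟨S, D⟩ hSD
    obtain ⟨hSD1, hA, hB⟩ := Finset.mem_filter.1 hSD
    obtain ⟨hS, hD⟩ := Finset.mem_product.1 hSD1
    have hS' := Finset.mem_powerset.1 hS
    have hD' := (Finset.mem_filter.1 hD).2
    refine (hAVO n c q (P S) (Q D) hc hq0 hq1).trans ?_
    rw [Real.exp_le_exp, neg_le_neg_iff]
    have h1 := hP S hS' hA hB
    have h2 := hQ D hD'
    have h3 : 0 ≤ (k : ℝ) - n / l := by linarith
    have h4 : 0 ≤ r ^ 2 / 4 - N := by linarith
    refine mul_le_mul ?_ h1 h4 ?_
    · refine div_le_div_of_nonneg_right ?_ hcR.le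
      exact mul_le_mul_of_nonneg_left h2 hq0
    · positivity
  -- step 4
  have hI : (I.card : ℝ) ≤ (2 / u) ^ ((n : ℝ) / l) * (1 + u) ^ c := by
    have h1 : I.card ≤ 2 ^ (big l H).card *
        (Finset.univ.filter fun D : Finset (Fin c) => (D.card : ℝ) ≤ n / l).card := by
      refine (Finset.card_filter_le _ _).trans ?_
      rw [Finset.card_product, Finset.card_powerset]
    have h2 : (I.card : ℝ) ≤ (2 : ℝ) ^ (big l H).card *
        ((Finset.univ.filter fun D : Finset (Fin c) => (D.card : ℝ) ≤ n / l).card : ℝ) := by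
      exact_mod_cast h1
    have h3 : (2 : ℝ) ^ (big l H).card ≤ (2 : ℝ) ^ ((n : ℝ) / l) := by
      rw [← Real.rpow_natCast]
      refine Real.rpow_le_rpow_of_exponent_le (by norm_num) ?_
      rw [le_div_iff₀ hl]
      exact big_card l H
    have h4 := hCTD c u ((n : ℝ) / l) hu0 hu1 hnl
    have h5 : (2 / u : ℝ) ^ ((n : ℝ) / l) = (2 : ℝ) ^ ((n : ℝ) / l) * (1 / u) ^ ((n : ℝ) / l) := by
      rw [← Real.mul_rpow (by norm_num) (by positivity)]
      congr 1
      ring
    rw [h5, mul_assoc]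
    exact h2.trans (mul_le_mul h3 h4 (by positivity) (by positivity))
  calc E (w1 c q) (fun z : Col n c => ind (Bad l r x z H))
      ≤ E (w1 c q) (fun z : Col n c => ∑ SD ∈ I, ind (∀ e ∈ P SD.1, ∀ j ∈ Q SD.2, z e ≠ some j)) :=
        E_mono _ (w1_nonneg c q hq0 hq1) _ _ step1
    _ = ∑ SD ∈ I, E (w1 c q) (fun z : Col n c =>
        ind (∀ e ∈ P SD.1, ∀ j ∈ Q SD.2, z e ≠ some j)) := E_sum _ _ _
    _ ≤ ∑ _SD ∈ I, Real.exp (-(q * (k - n / l) / c * (r ^ 2 / 4 - N))) :=
        Finset.sum_le_sum step3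
    _ = (I.card : ℝ) * Real.exp (-(q * (k - n / l) / c * (r ^ 2 / 4 - N))) := by
        rw [Finset.sum_const, nsmul_eq_mul]
    _ ≤ _ := mul_le_mul_of_nonneg_right hI (Real.exp_nonneg _)

end Pool.Agent.L7h82.RT
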